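import Mathlib

/-! If p^e divides y^N - x^N, p prime to N, x, y, then p^e <= (x+y)^(phi(m)) for some m dividing N. -/

namespace Pool.Agent.H81.Euler

open Finset Polynomial

/-- homogeneous cyclotomic value -/
noncomputable def H (x y : ℕ) (m : ℕ) : ℤ :=
  ∑ i ∈ range (m.totient + 1), (cyclotomic m ℤ).coeff i * (y : ℤ) ^ i * (x : ℤ) ^ (m.totient - i)

theorem H_cast {K : Type*} [Field K] (x y m : ℕ) (hx : (x : K) ≠ 0) :
    ((H x y m : ℤ) : K) = (x : K) ^ m.totient * (cyclotomic m K).eval ((y : K) / x) := by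
  rw [Polynomial.eval_eq_sum_range, natDegree_cyclotomic, Finset.mul_sum, H]
  push_cast
  refine Finset.sum_congr rfl (fun i hi => ?_)
  have hi' : i ≤ m.totient := by
    have := Finset.mem_range.1 hi
    omega
  have h1 : (cyclotomic m K).coeff i = (((cyclotomic m ℤ).coeff i : ℤ) : K) := by
    rw [← map_cyclotomic_int m K, coeff_map]
    simp
  rw [h1, div_pow]
  have h2 : (x : K) ^ m.totient = (x : K) ^ (m.totient - i) * (x : K) ^ i := by
    rw [← pow_add]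
    congr 1
    omega
  rw [h2]
  field_simp

theorem prod_H (x y N : ℕ) (hx : 0 < x) (hN : 0 < N) :
    ∏ m ∈ N.divisors, H x y m = (y : ℤ) ^ N - (x : ℤ) ^ N := by
  have hx0 : (x : ℝ) ≠ 0 := by positivity
  have h : ((∏ m ∈ N.divisors, H x y m : ℤ) : ℝ) = (((y : ℤ) ^ N - (x : ℤ) ^ N : ℤ) : ℝ) := by
    push_cast
    rw [Finset.prod_congr rfl (fun m _ => H_cast (K := ℝ) x y m hx0), Finset.prod_mul_distrib,
      Finset.prod_pow_eq_pow_sum, Nat.sum_totient, ← Polynomial.eval_prod,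
      prod_cyclotomic_eq_X_pow_sub_one hN]
    simp only [eval_sub, eval_pow, eval_X, eval_one]
    rw [div_pow]
    have : (x : ℝ) ^ N ≠ 0 := pow_ne_zero _ hx0
    field_simp
  exact_mod_cast h

theorem H_pos_le (x y m : ℕ) (hx : 0 < x) (hxy : x < y) (hm : 0 < m) :
    0 < H x y m ∧ H x y m ≤ ((x + y : ℕ) : ℤ) ^ m.totient := by
  have hx0 : (x : ℝ) ≠ 0 := by positivity
  have hxp : (0 : ℝ) < x := by positivity
  have hq : (1 : ℝ) < (y : ℝ) / x := by
    rw [one_lt_div hxp]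
    exact_mod_cast hxy
  have h1 := H_cast (K := ℝ) x y m hx0
  constructor
  · have h2 : (0 : ℝ) < (H x y m : ℝ) := by
      rw [h1]
      exact mul_pos (pow_pos hxp _) (cyclotomic_pos_and_nonneg m _ |>.1 hq)
    exact_mod_cast h2
  · have h2 : (H x y m : ℝ) ≤ ((x + y : ℕ) : ℝ) ^ m.totient := by
      rw [h1]
      have h3 := cyclotomic_eval_le_add_one_pow_totient hq (n := m)
      calc (x : ℝ) ^ m.totient * (cyclotomic m ℝ).eval ((y : ℝ) / x)
          ≤ (x : ℝ) ^ m.totient * ((y : ℝ) / x + 1) ^ m.totient :=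
            mul_le_mul_of_nonneg_left h3 (pow_nonneg hxp.le _)
        _ = ((x + y : ℕ) : ℝ) ^ m.totient := by
            rw [← mul_pow]
            congr 1
            push_cast
            field_simp
            ring
    exact_mod_cast h2

theorem pow_le_of_dvd {p e N x y : ℕ} (hp : p.Prime) (hN : 0 < N) (hpN : ¬ p ∣ N) (he : 1 ≤ e)
    (hx : ¬ p ∣ x) (hxy : x < y) (h : p ^ e ∣ y ^ N - x ^ N) :
    ∃ m, m ∣ N ∧ p ^ e ≤ (x + y) ^ m.totient := by
  classical
  haveI := Fact.mk hp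
  have hx1 : 0 < x := Nat.pos_of_ne_zero (fun h0 => hx (by simp [h0]))
  have hxZ : ((x : ℕ) : ZMod p) ≠ 0 := fun h0 => hx ((ZMod.natCast_eq_zero_iff _ _).1 h0)
  have hprod := prod_H x y N hx1 hN
  have hdvd : (p : ℤ) ^ e ∣ ∏ m ∈ N.divisors, H x y m := by
    rw [hprod]
    have h1 : x ^ N ≤ y ^ N := Nat.pow_le_pow_left hxy.le N
    have h2 : ((y ^ N - x ^ N : ℕ) : ℤ) = (y : ℤ) ^ N - (x : ℤ) ^ N := by
      push_cast [Nat.cast_sub h1]
      ring
    rw [← h2]
    exact_mod_cast h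
  have hroot : ∀ m ∈ N.divisors, (p : ℤ) ∣ H x y m →
      m = orderOf (((y : ℕ) : ZMod p) / ((x : ℕ) : ZMod p)) := by
    intro m hm hpm
    have hmN : m ∣ N := Nat.dvd_of_mem_divisors hm
    have hm0 : ((m : ℕ) : ZMod p) ≠ 0 := by
      intro h0
      exact hpN (((ZMod.natCast_eq_zero_iff _ _).1 h0).trans hmN)
    haveI : NeZero ((m : ℕ) : ZMod p) := ⟨hm0⟩
    have h1 : ((H x y m : ℤ) : ZMod p) = 0 := (ZMod.intCast_zmod_eq_zero_iff_dvd _ _).2 hpm
    rw [H_cast (K := ZMod p) x y m hxZ] at h1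
    have h2 : (cyclotomic m (ZMod p)).eval (((y : ℕ) : ZMod p) / x) = 0 := by
      rcases mul_eq_zero.1 h1 with h3 | h3
      · exact absurd h3 (pow_ne_zero _ hxZ)
      · exact h3
    exact (isRoot_cyclotomic_iff.1 h2).eq_orderOf
  have hpZ : Prime (p : ℤ) := Nat.prime_iff_prime_int.1 hp
  have hp1 : (p : ℤ) ∣ ∏ m ∈ N.divisors, H x y m :=
    (dvd_pow_self (p : ℤ) (by omega)).trans hdvd
  obtain ⟨m, hm, hpm⟩ := hpZ.exists_mem_finset_dvd hp1
  have hmN : m ∣ N := Nat.dvd_of_mem_divisors hm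
  refine ⟨m, hmN, ?_⟩
  have hcop : IsCoprime ((p : ℤ) ^ e) (∏ m' ∈ N.divisors.erase m, H x y m') := by
    refine IsCoprime.pow_left ?_
    rw [Prime.coprime_iff_not_dvd hpZ]
    intro h1
    obtain ⟨m', hm', hpm'⟩ := hpZ.exists_mem_finset_dvd h1
    have h2 := hroot m' (Finset.mem_of_mem_erase hm') hpm'
    have h3 := hroot m hm hpm
    exact (Finset.ne_of_mem_erase hm') (h2.trans h3.symm)
  have h1 : (p : ℤ) ^ e ∣ H x y m := by
    rw [← Finset.mul_prod_erase _ _ hm] at hdvd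
    exact hcop.dvd_of_dvd_mul_right hdvd
  obtain ⟨h2, h3⟩ := H_pos_le x y m hx1 hxy (Nat.pos_of_dvd_of_pos hmN hN)
  have h4 : (p : ℤ) ^ e ≤ ((x + y : ℕ) : ℤ) ^ m.totient := (Int.le_of_dvd h2 h1).trans h3
  exact_mod_cast h4

end Pool.Agent.H81.Euler
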