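import Mathlib

/-! Exactly one term of a solution of a_1^s + ... + a_n^s = b^s is prime to p, when all s-th powers
are 0 or 1 modulo p^k and n < p^k. -/

namespace Pool.Agent.H81.Euler

open Finset

/-- If `x^s ≡ 1 (mod p^k)` for all `x` prime to `p`, `k ≤ s`, `n < p^k`, and not all `a i` are
divisible by `p`, then `b` is prime to `p` and exactly one `a i` is prime to `p`. -/
theorem one_unit {p k s n : ℕ} (hp : p.Prime) (hk : 1 ≤ k)
    (hs : ∀ x : ℕ, ¬ p ∣ x → ((x : ZMod (p ^ k)) ^ s = 1)) (hks : k ≤ s) (hn : n < p ^ k)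
    (a : Fin n → ℕ) (b : ℕ) (hsum : ∑ i, a i ^ s = b ^ s) (hprim : ∃ i, ¬ p ∣ a i) :
    ¬ p ∣ b ∧ ∃ j, ¬ p ∣ a j ∧ ∀ i, i ≠ j → p ∣ a i := by
  classical
  have hz : ∀ x : ℕ, p ∣ x → ((x : ZMod (p ^ k)) ^ s = 0) := by
    intro x hx
    have h1 : p ^ k ∣ x ^ s := (pow_dvd_pow p hks).trans (pow_dvd_pow_of_dvd hx s)
    have h2 : ((x ^ s : ℕ) : ZMod (p ^ k)) = 0 := (ZMod.natCast_eq_zero_iff _ _).2 h1
    simpa using h2
  have hpk : 1 < p ^ k := Nat.one_lt_pow (by omega) hp.one_lt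
  set S := (univ : Finset (Fin n)).filter (fun i => ¬ p ∣ a i) with hS
  have hcard : ((S.card : ℕ) : ZMod (p ^ k)) = ((b : ZMod (p ^ k)) ^ s) := by
    have h1 : ((∑ i, a i ^ s : ℕ) : ZMod (p ^ k)) = ((b ^ s : ℕ) : ZMod (p ^ k)) := by rw [hsum]
    push_cast at h1
    rw [← h1]
    have h2 : ∀ i : Fin n, ((a i : ZMod (p ^ k)) ^ s) = if ¬ p ∣ a i then 1 else 0 := by
      intro i
      by_cases h : p ∣ a i
      · simp [h, hz _ h]
      · simp [h, hs _ h]
    rw [Finset.sum_congr rfl (fun i _ => h2 i), Finset.sum_boole]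
  have hle : S.card ≤ n := by
    calc S.card ≤ (univ : Finset (Fin n)).card := Finset.card_le_card (Finset.filter_subset _ _)
      _ = n := by simp
  have hpos : 0 < S.card := by
    obtain ⟨i, hi⟩ := hprim
    exact Finset.card_pos.2 ⟨i, by simp [hS, hi]⟩
  have hb : ¬ p ∣ b := by
    intro hb
    rw [hz b hb, ZMod.natCast_eq_zero_iff] at hcard
    exact absurd (Nat.le_of_dvd hpos hcard) (by omega)
  refine ⟨hb, ?_⟩
  rw [hs b hb] at hcard
  have h1 : S.card ≡ 1 [MOD p ^ k] := by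
    have : ((S.card : ℕ) : ZMod (p ^ k)) = ((1 : ℕ) : ZMod (p ^ k)) := by simpa using hcard
    exact (ZMod.natCast_eq_natCast_iff _ _ _).1 this
  have h2 : S.card = 1 := by
    have h3 : S.card % p ^ k = 1 % p ^ k := h1
    rwa [Nat.mod_eq_of_lt (by omega), Nat.mod_eq_of_lt hpk] at h3
  obtain ⟨j, hj⟩ := Finset.card_eq_one.1 h2
  have hjS : j ∈ S := by rw [hj]; simp
  refine ⟨j, (by simpa [hS] using hjS), fun i hij => ?_⟩
  by_contra hi
  have : i ∈ S := by simp [hS, hi]
  rw [hj] at this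
  exact hij (by simpa using this)

/-- Under the same hypotheses: a solution with all `a i < b`, `b > 0`, gives `x < y ≤ b` prime to
`p` with `p^s ∣ y^s - x^s`. -/
theorem exists_pair {p k s n : ℕ} (hp : p.Prime) (hk : 1 ≤ k)
    (hs : ∀ x : ℕ, ¬ p ∣ x → ((x : ZMod (p ^ k)) ^ s = 1)) (hks : k ≤ s) (hn : n < p ^ k)
    (b : ℕ) : ∀ (a : Fin n → ℕ), 0 < b → (∀ i, a i < b) → ∑ i, a i ^ s = b ^ s →
      ∃ x y : ℕ, x < y ∧ y ≤ b ∧ ¬ p ∣ x ∧ ¬ p ∣ y ∧ p ^ s ∣ y ^ s - x ^ s := by
  classical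
  induction b using Nat.strong_induction_on with
  | _ b ih =>
    intro a hb hab hsum
    by_cases hprim : ∃ i, ¬ p ∣ a i
    · obtain ⟨h1, j, hj, hothers⟩ := one_unit hp hk hs hks hn a b hsum hprim
      refine ⟨a j, b, hab j, le_rfl, hj, h1, ?_⟩
      have h2 : b ^ s - a j ^ s = ∑ i ∈ univ.erase j, a i ^ s := by
        rw [← hsum, ← Finset.add_sum_erase univ _ (mem_univ j)]
        simp
      rw [h2]
      refine Finset.dvd_sum (fun i hi => ?_)
      exact pow_dvd_pow_of_dvd (hothers i (Finset.ne_of_mem_erase hi)) s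
    · push Not at hprim
      have hs0 : s ≠ 0 := by omega
      have hpb : p ∣ b := by
        have : p ∣ b ^ s := by
          rw [← hsum]
          exact Finset.dvd_sum (fun i _ => dvd_pow (hprim i) hs0)
        exact hp.dvd_of_dvd_pow this
      obtain ⟨c, rfl⟩ := hpb
      have hc : 0 < c := Nat.pos_of_mul_pos_left hb |> fun h => by
        rcases Nat.eq_zero_or_pos c with h0 | h0
        · simp [h0] at hb
        · exact h0
      choose d hd using hprim
      have hlt : c < p * c := by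
        have := hp.two_le
        nlinarith
      obtain ⟨x, y, h1, h2, h3, h4, h5⟩ := ih c hlt d hc
        (fun i => by
          have := hab i
          rw [hd i] at this
          exact Nat.lt_of_mul_lt_mul_left this)
        (by
          have h6 : p ^ s * ∑ i, d i ^ s = p ^ s * c ^ s := by
            rw [Finset.mul_sum, ← mul_pow, ← hsum]
            refine Finset.sum_congr rfl (fun i _ => ?_)
            rw [hd i, mul_pow]
          exact Nat.eq_of_mul_eq_mul_left (pow_pos hp.pos s) h6)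
      exact ⟨x, y, h1, h2.trans hlt.le, h3, h4, h5⟩

end Pool.Agent.H81.Euler
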