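import Mathlib
import Pool.Agent.H81.Euler.Unit
import Pool.Agent.H81.Euler.Cyc

/-! Lower bounds for solutions of a_1^s + ... + a_n^s = b^s, n < s, for s = 2^v, 3*2^v, phi(p^k). -/

namespace Pool.Agent.H81.Euler

open Finset

theorem two_case (v m : ℕ) (hm : m = 1 ∨ m = 3) (hv : 1 ≤ v) (hs3 : 3 ≤ m * 2 ^ v) (n : ℕ)
    (hn : n < m * 2 ^ v) (a : Fin n → ℕ) (b : ℕ) (hb : 0 < b) (hab : ∀ i, a i < b)
    (hsum : ∑ i, a i ^ (m * 2 ^ v) = b ^ (m * 2 ^ v)) :
    m * 2 ^ (m * 2 ^ v - 1) < b * (m * 2 ^ v) := by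
  haveI : Fact (Nat.Prime 2) := ⟨Nat.prime_two⟩
  set s := m * 2 ^ v with hs
  have hv2 : v < 2 ^ v := Nat.lt_two_pow_self
  have hm0 : m ≠ 0 := by omega
  have hs0 : s ≠ 0 := by omega
  have hseven : Even s := by
    rw [hs]
    exact (Nat.even_pow.2 ⟨even_two, by omega⟩).mul_left m
  have hval : padicValNat 2 s = v := by
    rw [hs, padicValNat.mul hm0 (by positivity), padicValNat.prime_pow]
    have : padicValNat 2 m = 0 := by
      apply padicValNat.eq_zero_of_not_dvd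
      omega
    omega
  have hle : v + 2 ≤ s := by
    rcases hm with rfl | rfl
    · rcases Nat.lt_or_ge v 2 with h | h
      · have : v = 1 := by omega
        subst this
        omega
      · have h2 : 2 ^ v = 4 * 2 ^ (v - 2) := by
          obtain ⟨w, rfl⟩ := Nat.exists_eq_add_of_le h
          rw [pow_add]
          simp
        have h3 : v - 2 < 2 ^ (v - 2) := Nat.lt_two_pow_self
        omega
    · omega
  have hlt : n < 2 ^ (v + 2) := by
    have h3 : m * 2 ^ v ≤ 3 * 2 ^ v := Nat.mul_le_mul_right _ (by omega)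
    rw [pow_add]
    omega
  have hone : ∀ x : ℕ, ¬ 2 ∣ x → ((x : ZMod (2 ^ (v + 2))) ^ s = 1) := by
    intro x hx
    rcases Nat.lt_or_ge 1 x with h1 | h1
    · have h2 := padicValNat.pow_two_sub_one_ge h1 hx hs0 hseven
      rw [hval] at h2
      have h3 : 2 ^ (v + 2) ∣ x ^ s - 1 := by
        refine (padicValNat_dvd_iff_le ?_).2 h2
        have : 1 < x ^ s := Nat.one_lt_pow hs0 h1
        omega
      have h4 : 1 ≤ x ^ s := Nat.one_le_pow _ _ (by omega)
      have h5 : ((x ^ s - 1 : ℕ) : ZMod (2 ^ (v + 2))) = 0 := (ZMod.natCast_eq_zero_iff _ _).2 h3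
      rw [Nat.cast_sub h4] at h5
      push_cast at h5
      exact sub_eq_zero.1 h5
    · have : x = 1 := by
        rcases Nat.eq_zero_or_pos x with h | h
        · simp [h] at hx
        · omega
      simp [this]
  obtain ⟨x, y, hxy, hyb, hx, hy, hdvd⟩ :=
    exists_pair Nat.prime_two (k := v + 2) (by omega) hone hle hlt b a hb hab hsum
  have hne : y ^ s - x ^ s ≠ 0 := by
    have := Nat.pow_lt_pow_left hxy hs0
    omega
  have h1 : s ≤ padicValNat 2 (y ^ s - x ^ s) := (padicValNat_dvd_iff_le hne).1 hdvd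
  have h2 := padicValNat.pow_two_sub_pow hxy (by omega) hy hs0 hseven
  rw [hval] at h2
  have hpos : 0 < y - x := by omega
  have key : 2 ^ (s - v) ≤ y + x := by
    by_cases h3 : 2 ≤ padicValNat 2 (y + x)
    · have h4 : padicValNat 2 (y - x) ≤ 1 := by
        by_contra h5
        have h6 : 2 ^ 2 ∣ y + x := (padicValNat_dvd_iff_le (by omega)).2 h3
        have h7 : 2 ^ 2 ∣ y - x := (padicValNat_dvd_iff_le (by omega)).2 (by omega)
        omega
      have h5 : 2 ^ (s - v) ∣ y + x := (padicValNat_dvd_iff_le (by omega)).2 (by omega)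
      exact Nat.le_of_dvd (by omega) h5
    · have h5 : 2 ^ (s - v) ∣ y - x := (padicValNat_dvd_iff_le (by omega)).2 (by omega)
      have := Nat.le_of_dvd hpos h5
      omega
  have h8 : 2 ^ (s - v) < 2 * b := by omega
  have h9 : 2 ^ (s - v) * (m * 2 ^ v) = 2 * (m * 2 ^ (s - 1)) := by
    have e1 : 2 ^ (s - v) * 2 ^ v = 2 * 2 ^ (s - 1) := by
      rw [← pow_add, ← pow_succ']
      congr 1
      omega
    calc 2 ^ (s - v) * (m * 2 ^ v) = m * (2 ^ (s - v) * 2 ^ v) := by ring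
      _ = 2 * (m * 2 ^ (s - 1)) := by rw [e1]; ring
  have h10 : 2 ^ (s - v) * (m * 2 ^ v) < 2 * b * (m * 2 ^ v) :=
    Nat.mul_lt_mul_of_pos_right h8 (by positivity)
  rw [h9] at h10
  have h11 : 2 * b * (m * 2 ^ v) = 2 * (b * s) := by rw [hs]; ring
  omega

theorem odd_case (p k : ℕ) (hp : p.Prime) (hp2 : p ≠ 2) (hk : 1 ≤ k) (n : ℕ)
    (hn : n < (p ^ k).totient) (a : Fin n → ℕ) (b : ℕ) (hb : 0 < b) (hab : ∀ i, a i < b)
    (hsum : ∑ i, a i ^ (p ^ k).totient = b ^ (p ^ k).totient) :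
    p ^ ((p ^ k).totient + 1 - k) < (2 * b) ^ (p - 1).totient := by
  haveI := Fact.mk hp
  have hodd : Odd p := hp.odd_of_ne_two hp2
  have hp3 : 3 ≤ p := by
    have := hp.two_le
    omega
  set s := (p ^ k).totient with hs
  have hs' : s = p ^ (k - 1) * (p - 1) := Nat.totient_prime_pow hp (by omega)
  have hs0 : s ≠ 0 := by
    rw [hs']
    have h1 : 0 < p ^ (k - 1) := pow_pos hp.pos _
    have h2 : 0 < p - 1 := by omega
    positivity
  have hks : k ≤ s := by
    have h1 : k - 1 < p ^ (k - 1) := Nat.lt_pow_self hp.one_lt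
    rw [hs']
    have h2 : p ^ (k - 1) * 1 ≤ p ^ (k - 1) * (p - 1) := Nat.mul_le_mul_left _ (by omega)
    omega
  have hlt : n < p ^ k := hn.trans_le (Nat.totient_le _)
  have hone : ∀ x : ℕ, ¬ p ∣ x → ((x : ZMod (p ^ k)) ^ s = 1) := by
    intro x hx
    have hc : Nat.Coprime x (p ^ k) := by
      apply Nat.Coprime.pow_right
      exact ((Nat.Prime.coprime_iff_not_dvd hp).2 hx).symm
    have h1 := Nat.ModEq.pow_totient hc
    have h2 := (ZMod.natCast_eq_natCast_iff _ _ _).2 h1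
    push_cast at h2
    exact h2
  obtain ⟨x, y, hxy, hyb, hx, hy, hdvd⟩ :=
    exists_pair hp hk hone hks hlt b a hb hab hsum
  have hpow : ∀ z : ℕ, z ^ s = (z ^ (p - 1)) ^ (p ^ (k - 1)) := by
    intro z
    rw [← pow_mul, hs', mul_comm]
  have hfer : ∀ z : ℕ, ¬ p ∣ z → z ^ (p - 1) ≡ 1 [MOD p] := by
    intro z hz
    have h1 : Nat.Coprime z p := ((Nat.Prime.coprime_iff_not_dvd hp).2 hz).symm
    have h2 := Nat.ModEq.pow_totient h1
    rwa [Nat.totient_prime hp] at h2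
  have hxy' : x ^ (p - 1) < y ^ (p - 1) := Nat.pow_lt_pow_left hxy (by omega)
  have hd1 : p ∣ y ^ (p - 1) - x ^ (p - 1) := by
    have h1 : x ^ (p - 1) ≡ y ^ (p - 1) [MOD p] := (hfer x hx).trans (hfer y hy).symm
    exact (Nat.modEq_iff_dvd' hxy'.le).1 h1
  have hy' : ¬ p ∣ y ^ (p - 1) := fun h => hy (hp.dvd_of_dvd_pow h)
  have h2 := padicValNat.pow_sub_pow (p := p) hodd hxy' hd1 hy' (n := p ^ (k - 1))
    (pow_ne_zero _ hp.ne_zero)
  rw [← hpow, ← hpow, padicValNat.prime_pow] at h2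
  have hne : y ^ s - x ^ s ≠ 0 := by
    have := Nat.pow_lt_pow_left hxy hs0
    omega
  have h1 : s ≤ padicValNat p (y ^ s - x ^ s) := (padicValNat_dvd_iff_le hne).1 hdvd
  have h3 : p ^ (s + 1 - k) ∣ y ^ (p - 1) - x ^ (p - 1) := by
    refine (padicValNat_dvd_iff_le ?_).2 ?_
    · omega
    · omega
  have hpN : ¬ p ∣ p - 1 := by
    intro h
    have := Nat.le_of_dvd (by omega) h
    omega
  obtain ⟨m, hmN, hle⟩ := pow_le_of_dvd hp (by omega) hpN (by omega) hx hxy h3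
  have hm0 : 0 < m := Nat.pos_of_dvd_of_pos hmN (by omega)
  have h4 : (x + y) ^ m.totient < (2 * b) ^ m.totient :=
    Nat.pow_lt_pow_left (by omega) (Nat.totient_pos.2 hm0).ne'
  have h5 : m.totient ≤ (p - 1).totient :=
    Nat.le_of_dvd (Nat.totient_pos.2 (by omega)) (Nat.totient_dvd_of_dvd hmN)
  calc p ^ (s + 1 - k) ≤ (x + y) ^ m.totient := hle
    _ < (2 * b) ^ m.totient := h4
    _ ≤ (2 * b) ^ (p - 1).totient := Nat.pow_le_pow_right (by omega) h5

end Pool.Agent.H81.Euler
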